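import Mathlib
import Pool.Agent.Helper707.Rel

/-!
# Paths and the value of a word
-/

set_option autoImplicit false
set_option linter.unusedSimpArgs false

namespace Pool.Agent.U113.EQ

open Pool.Agent.Helper707.Rel

/-- Four vertices of a quiver: `x : v0 → v1`, a loop `a` at `v1`, arrows `q : v1 → v2`, a loop `b`
at `v2` and an arrow `t : v2 → vz`. -/
structure Quiv (V : Type) where
  v0 : V
  v1 : V
  v2 : V
  vz : V
  h01 : v0 ≠ v1
  h02 : v0 ≠ v2
  h12 : v1 ≠ v2
  hz1 : vz ≠ v1
  hz2 : vz ≠ v2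

namespace Quiv

variable {V : Type} (Q : Quiv V)

/-- source of a letter -/
def src (c : ℕ) : V := if c = 0 then Q.v0 else if c = 1 then Q.v1 else if c ≤ 3 then Q.v2 else Q.v1

/-- target of a letter -/
def tgt (c : ℕ) : V := if c ≤ 1 then Q.v1 else if c = 3 then Q.vz else Q.v2

theorem src_v0 {c : ℕ} (h : Q.src c = Q.v0) : c = 0 := by
  unfold src at h
  split_ifs at h with h1 h2 h3
  · exact h1
  · exact absurd h.symm Q.h01
  · exact absurd h.symm Q.h02
  · exact absurd h.symm Q.h01

theorem src_v1 {c : ℕ} (h : Q.src c = Q.v1) : c = 1 ∨ 4 ≤ c := by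
  unfold src at h
  split_ifs at h with h1 h2 h3
  · exact absurd h Q.h01
  · exact Or.inl h2
  · exact absurd h.symm Q.h12
  · right; omega

theorem src_v2 {c : ℕ} (h : Q.src c = Q.v2) : c = 2 ∨ c = 3 := by
  unfold src at h
  split_ifs at h with h1 h2 h3
  · exact absurd h Q.h02
  · exact absurd h Q.h12
  · omega
  · exact absurd h Q.h12

theorem src_vz {c : ℕ} (h : Q.src c = Q.vz) : c = 0 := by
  unfold src at h
  split_ifs at h with h1 h2 h3
  · exact h1
  · exact absurd h.symm Q.hz1
  · exact absurd h.symm Q.hz2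
  · exact absurd h.symm Q.hz1

/-- `l` is a path from `u` to `w` -/
def Path : V → List ℕ → V → Prop
  | u, [], w => u = w
  | u, c :: l, w => Q.src c = u ∧ Path (Q.tgt c) l w

theorem path_append (u w : V) (l l' : List ℕ) :
    Q.Path u (l ++ l') w ↔ ∃ v, Q.Path u l v ∧ Q.Path v l' w := by
  induction l generalizing u with
  | nil => simp [Path]
  | cons c l ih =>
    simp only [List.cons_append, Path, ih]
    constructor
    · rintro ⟨h1, v, h2, h3⟩
      exact ⟨v, ⟨h1, h2⟩, h3⟩
    · rintro ⟨v, ⟨h1, h2⟩, h3⟩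
      exact ⟨h1, v, h2, h3⟩

theorem path_one (u w : V) (c : ℕ) : Q.Path u [c] w ↔ Q.src c = u ∧ Q.tgt c = w := Iff.rfl

theorem path_rep (w : V) (l : List ℕ) (m : ℕ) :
    Q.Path Q.v1 (List.replicate m 1 ++ l) w ↔ Q.Path Q.v1 l w := by
  induction m with
  | zero => simp
  | succ m ih =>
    rw [List.replicate_succ, List.cons_append]
    simp only [Path]
    have h1 : Q.src 1 = Q.v1 := by simp [src]
    have h2 : Q.tgt 1 = Q.v1 := by simp [tgt]
    rw [h1, h2, ih]
    simp

theorem path_rep' (u w : V) (l : List ℕ) (m : ℕ)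
    (hl : ∀ u', Q.Path u' l w → u' = Q.v1) (h : Q.Path u (List.replicate m 1 ++ l) w) :
    u = Q.v1 := by
  cases m with
  | zero => exact hl u (by simpa using h)
  | succ m =>
    rw [List.replicate_succ, List.cons_append] at h
    have h1 : Q.src 1 = Q.v1 := by simp [src]
    exact h.1.symm.trans h1

/-- the paths spelled by `a ^ m q_j` go from `v1` to `v2` -/
theorem path_aq (u w : V) (m j : ℕ) (hj : 4 ≤ j) :
    Q.Path u (List.replicate m 1 ++ [j]) w ↔ u = Q.v1 ∧ w = Q.v2 := by
  have hs : Q.src j = Q.v1 := by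
    unfold src
    rw [if_neg (by omega), if_neg (by omega), if_neg (by omega)]
  have ht : Q.tgt j = Q.v2 := by
    unfold tgt
    rw [if_neg (by omega), if_neg (by omega)]
  constructor
  · intro h
    have hu : u = Q.v1 := by
      refine Q.path_rep' u w [j] m (fun u' h' => ?_) h
      exact h'.1.symm.trans hs
    subst hu
    rw [path_rep, path_one, hs, ht] at h
    exact ⟨rfl, h.2.symm⟩
  · rintro ⟨rfl, rfl⟩
    rw [path_rep, path_one, hs, ht]
    exact ⟨rfl, rfl⟩

/-- the paths spelled by `a ^ m q_j l` -/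
theorem path_aql (u w : V) (m j : ℕ) (hj : 4 ≤ j) (l : List ℕ) :
    Q.Path u (List.replicate m 1 ++ j :: l) w ↔ u = Q.v1 ∧ Q.Path Q.v2 l w := by
  have e : List.replicate m 1 ++ j :: l = (List.replicate m 1 ++ [j]) ++ l := by simp
  rw [e, path_append]
  simp only [Q.path_aq _ _ m j hj]
  constructor
  · rintro ⟨v, ⟨h1, rfl⟩, h2⟩
    exact ⟨h1, h2⟩
  · rintro ⟨h1, h2⟩
    exact ⟨Q.v2, ⟨h1, rfl⟩, h2⟩

theorem path_b (u w : V) : Q.Path u [2] w ↔ u = Q.v2 ∧ w = Q.v2 := by
  rw [path_one]
  have hs : Q.src 2 = Q.v2 := by simp [src]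
  have ht : Q.tgt 2 = Q.v2 := by simp [tgt]
  rw [hs, ht]
  constructor
  · rintro ⟨h1, h2⟩; exact ⟨h1.symm, h2.symm⟩
  · rintro ⟨h1, h2⟩; exact ⟨h1.symm, h2.symm⟩

theorem path_t (u w : V) : Q.Path u [3] w ↔ u = Q.v2 ∧ w = Q.vz := by
  rw [path_one]
  have hs : Q.src 3 = Q.v2 := by simp [src]
  have ht : Q.tgt 3 = Q.vz := by simp [tgt]
  rw [hs, ht]
  constructor
  · rintro ⟨h1, h2⟩; exact ⟨h1.symm, h2.symm⟩
  · rintro ⟨h1, h2⟩; exact ⟨h1.symm, h2.symm⟩

theorem path_x (u w : V) (l : List ℕ) : Q.Path u (0 :: l) w ↔ u = Q.v0 ∧ Q.Path Q.v1 l w := by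
  have hs : Q.src 0 = Q.v0 := by simp [src]
  have ht : Q.tgt 0 = Q.v1 := by simp [tgt]
  simp only [Path, hs, ht]
  constructor
  · rintro ⟨h1, h2⟩; exact ⟨h1.symm, h2⟩
  · rintro ⟨h1, h2⟩; exact ⟨h1.symm, h2⟩

theorem nil_of_v0 {l : List ℕ} {w : V} (h : Q.Path Q.v0 l w) (h0 : l.count 0 = 0) : l = [] := by
  cases l with
  | nil => rfl
  | cons c l =>
    have hc := Q.src_v0 h.1
    subst hc
    simp at h0

theorem nil_of_vz {l : List ℕ} {w : V} (h : Q.Path Q.vz l w) (h0 : l.count 0 = 0) : l = [] := by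
  cases l with
  | nil => rfl
  | cons c l =>
    have hc := Q.src_vz h.1
    subst hc
    simp at h0

theorem count_of_v2 {l : List ℕ} {w : V} (h : Q.Path Q.v2 l w) (h0 : l.count 0 = 0) :
    l.count 1 = 0 := by
  induction l with
  | nil => rfl
  | cons c l ih =>
    have h0' : l.count 0 = 0 := by
      rw [List.count_cons] at h0; omega
    rcases Q.src_v2 h.1 with rfl | rfl
    · have h2 : Q.Path Q.v2 l w := by
        have := h.2
        rwa [show Q.tgt 2 = Q.v2 by simp [tgt]] at this
      rw [List.count_cons, ih h2 h0']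
      simp
    · have h2 : Q.Path Q.vz l w := by
        have := h.2
        rwa [show Q.tgt 3 = Q.vz by simp [tgt]] at this
      rw [Q.nil_of_vz h2 h0']
      simp

theorem no_v2_v1 {l : List ℕ} (h : Q.Path Q.v2 l Q.v1) (h3 : l.count 3 = 0) : False := by
  induction l with
  | nil => exact Q.h12 h.symm
  | cons c l ih =>
    rcases Q.src_v2 h.1 with rfl | rfl
    · refine ih ?_ ?_
      · have := h.2
        rwa [show Q.tgt 2 = Q.v2 by simp [tgt]] at this
      · rw [List.count_cons] at h3; omega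
    · simp at h3

theorem count_of_v1 {l : List ℕ} (h : Q.Path Q.v1 l Q.v1) (h3 : l.count 3 = 0) :
    l.count 2 = 0 := by
  induction l with
  | nil => rfl
  | cons c l ih =>
    have h3' : l.count 3 = 0 := by
      rw [List.count_cons] at h3; omega
    rcases Q.src_v1 h.1 with rfl | hc
    · have h2 : Q.Path Q.v1 l Q.v1 := by
        have := h.2
        rwa [show Q.tgt 1 = Q.v1 by simp [tgt]] at this
      rw [List.count_cons, ih h2 h3']
      simp
    · exfalso
      refine Q.no_v2_v1 (l := l) ?_ h3'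
      have := h.2
      rwa [show Q.tgt c = Q.v2 by unfold tgt; rw [if_neg (by omega), if_neg (by omega)]] at this

theorem count_of_v0 {l : List ℕ} (h : Q.Path Q.v0 l Q.v1) (h3 : l.count 3 = 0) :
    l.count 2 = 0 := by
  cases l with
  | nil => exact absurd h Q.h01
  | cons c l =>
    have hc := Q.src_v0 h.1
    subst hc
    have h2 : Q.Path Q.v1 l Q.v1 := by
      have := h.2
      rwa [show Q.tgt 0 = Q.v1 by simp [tgt]] at this
    have h3' : l.count 3 = 0 := by
      rw [List.count_cons] at h3; omega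
    rw [List.count_cons, Q.count_of_v1 h2 h3']
    simp

theorem count_zero_pos {l : List ℕ} (h : Q.Path Q.v0 l Q.v1) : 0 < l.count 0 := by
  cases l with
  | nil => exact absurd h Q.h01
  | cons c l =>
    have hc := Q.src_v0 h.1
    subst hc
    simp

end Quiv

/-- the number of a configuration -/
def num (Y : Sys) (j i k : ℕ) : ℕ := if j = 4 then i + Y.m * k else i + Y.a (j - 5) * k + Y.e (j - 5)

/-- contents of the words of the configurations which do not halt -/
def Good (Y : Sys) (d : ℕ → ℕ) : Prop :=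
  d 0 = 1 ∧ d 3 = 1 ∧ ∃ j, 4 ≤ j ∧ d j = 1 ∧ (∀ l, 4 ≤ l → l ≠ j → d l = 0) ∧
    ¬ Y.Halts (num Y j (d 1) (d 2))

/-- content of a word -/
def cnt (l : List ℕ) (c : ℕ) : ℕ := l.count c

theorem cnt_append (l l' : List ℕ) : cnt (l ++ l') = cnt l + cnt l' := by
  funext c
  simp [cnt, List.count_append]

/-- if the letter `j` occurs then it is the state -/
theorem Good.iff {Y : Sys} {d : ℕ → ℕ} {j : ℕ} (hj : 4 ≤ j) (h : 0 < d j) :
    Good Y d ↔ d 0 = 1 ∧ d 3 = 1 ∧ d j = 1 ∧ (∀ l, 4 ≤ l → l ≠ j → d l = 0) ∧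
      ¬ Y.Halts (num Y j (d 1) (d 2)) := by
  constructor
  · rintro ⟨h0, h3, j', hj', h1, h2, h4⟩
    have : j = j' := by
      by_contra hne
      have := h2 j hj hne
      omega
    subst this
    exact ⟨h0, h3, h1, h2, h4⟩
  · rintro ⟨h0, h3, h1, h2, h4⟩
    exact ⟨h0, h3, j, hj, h1, h2, h4⟩

section rels

variable {V : Type} (Q : Quiv V) (Y : Sys)

/-- the word `l` is the word of a configuration which does not halt -/
def Val (l : List ℕ) : Prop := Q.Path Q.v0 l Q.vz ∧ Good Y (cnt l)

theorem count_rep (m c : ℕ) : List.count c (List.replicate m 1) = if c = 1 then m else 0 := by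
  rw [List.count_replicate]
  by_cases h : c = 1
  · simp [h]
  · simp [h, Ne.symm h]

theorem val_r1 (p s : List ℕ) : Val Q Y (p ++ (List.replicate Y.m 1 ++ [4]) ++ s) ↔
    Val Q Y (p ++ [4, 2] ++ s) := by
  unfold Val
  have hp : Q.Path Q.v0 (p ++ (List.replicate Y.m 1 ++ [4]) ++ s) Q.vz ↔
      Q.Path Q.v0 (p ++ [4, 2] ++ s) Q.vz := by
    rw [Q.path_append, Q.path_append]
    refine exists_congr fun v => and_congr_left fun _ => ?_
    rw [Q.path_append, Q.path_append]
    refine exists_congr fun u => and_congr_right fun _ => ?_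
    rw [Q.path_aq _ _ _ 4 le_rfl]
    have := Q.path_aql u v 0 4 le_rfl [2]
    rw [List.replicate_zero, List.nil_append, Q.path_b] at this
    rw [this]
    simp
  rw [hp]
  refine and_congr_right fun _ => ?_
  rw [Good.iff (j := 4) le_rfl (by simp [cnt]), Good.iff (j := 4) le_rfl (by simp [cnt])]
  have e : ∀ c, c ≠ 1 → c ≠ 2 → cnt (p ++ (List.replicate Y.m 1 ++ [4]) ++ s) c =
      cnt (p ++ [4, 2] ++ s) c := by
    intro c h1 h2
    simp only [cnt, List.count_append, count_rep, if_neg h1]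
    congr 1
    simp [List.count_cons, Ne.symm h2]
  rw [e 0 (by simp) (by simp), e 3 (by simp) (by simp), e 4 (by simp) (by simp)]
  refine and_congr_right fun _ => and_congr_right fun _ => and_congr_right fun _ => ?_
  refine and_congr ?_ ?_
  · refine forall_congr' fun l => forall_congr' fun hl => forall_congr' fun _ => ?_
    rw [e l (by omega) (by omega)]
  · have e1 : cnt (p ++ (List.replicate Y.m 1 ++ [4]) ++ s) 1 = cnt (p ++ [4, 2] ++ s) 1 + Y.m := by
      simp [cnt, List.count_append, count_rep, List.count_cons]; omega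
    have e2 : cnt (p ++ [4, 2] ++ s) 2 = cnt (p ++ (List.replicate Y.m 1 ++ [4]) ++ s) 2 + 1 := by
      simp [cnt, List.count_append, count_rep, List.count_cons]; omega
    rw [e1, e2]
    simp only [num, if_pos]
    rw [Nat.mul_succ, add_assoc, add_comm Y.m]

theorem val_r3 (r : ℕ) (p s : List ℕ) : Val Q Y (p ++ [5 + r, 2] ++ s) ↔
    Val Q Y (p ++ (List.replicate (Y.a r) 1 ++ [5 + r]) ++ s) := by
  unfold Val
  have hp : Q.Path Q.v0 (p ++ [5 + r, 2] ++ s) Q.vz ↔
      Q.Path Q.v0 (p ++ (List.replicate (Y.a r) 1 ++ [5 + r]) ++ s) Q.vz := by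
    rw [Q.path_append, Q.path_append]
    refine exists_congr fun v => and_congr_left fun _ => ?_
    rw [Q.path_append, Q.path_append]
    refine exists_congr fun u => and_congr_right fun _ => ?_
    rw [Q.path_aq _ _ _ (5 + r) (by omega)]
    have := Q.path_aql u v 0 (5 + r) (by omega) [2]
    rw [List.replicate_zero, List.nil_append, Q.path_b] at this
    rw [this]
    simp
  rw [hp]
  refine and_congr_right fun _ => ?_
  rw [Good.iff (j := 5 + r) (by omega) (by simp [cnt]),
    Good.iff (j := 5 + r) (by omega) (by simp [cnt])]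
  have e : ∀ c, c ≠ 1 → c ≠ 2 → cnt (p ++ [5 + r, 2] ++ s) c =
      cnt (p ++ (List.replicate (Y.a r) 1 ++ [5 + r]) ++ s) c := by
    intro c h1 h2
    simp only [cnt, List.count_append, count_rep, if_neg h1]
    congr 1
    simp [List.count_cons, Ne.symm h2]
  rw [e 0 (by simp) (by simp), e 3 (by simp) (by simp), e (5 + r) (by omega) (by omega)]
  refine and_congr_right fun _ => and_congr_right fun _ => and_congr_right fun _ => ?_
  refine and_congr ?_ ?_
  · refine forall_congr' fun l => forall_congr' fun hl => forall_congr' fun _ => ?_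
    rw [e l (by omega) (by omega)]
  · have e1 : cnt (p ++ (List.replicate (Y.a r) 1 ++ [5 + r]) ++ s) 1 =
        cnt (p ++ [5 + r, 2] ++ s) 1 + Y.a r := by
      have : (5 + r = 1) = False := by simp; omega
      simp [cnt, List.count_append, count_rep, List.count_cons, this]; omega
    have e2 : cnt (p ++ [5 + r, 2] ++ s) 2 =
        cnt (p ++ (List.replicate (Y.a r) 1 ++ [5 + r]) ++ s) 2 + 1 := by
      have : (5 + r = 2) = False := by simp; omega
      simp [cnt, List.count_append, count_rep, List.count_cons, this]; omega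
    rw [e1, e2]
    have h5 : ¬ 5 + r = 4 := by omega
    simp only [num, if_neg h5, Nat.add_sub_cancel_left]
    rw [Nat.mul_succ]
    have : ∀ x y z w : ℕ, x + (y + z) + w = x + z + y + w := by intros; omega
    rw [this]

/-- the word of a configuration of the form `x ⋯`, seen from the test for zero on the left -/
theorem val_left {r : ℕ} {j : ℕ} (hj : 4 ≤ j) (p s : List ℕ) :
    Val Q Y (p ++ (0 :: (List.replicate r 1 ++ [j])) ++ s) ↔
      p = [] ∧ Q.Path Q.v2 s Q.vz ∧ s.count 0 = 0 ∧ s.count 3 = 1 ∧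
        (∀ l, 4 ≤ l → s.count l = 0) ∧ ¬ Y.Halts (num Y j r (s.count 2)) := by
  unfold Val
  rw [Good.iff (j := j) hj (by simp [cnt])]
  have hpath : Q.Path Q.v0 (p ++ (0 :: (List.replicate r 1 ++ [j])) ++ s) Q.vz ↔
      Q.Path Q.v0 p Q.v0 ∧ Q.Path Q.v2 s Q.vz := by
    rw [Q.path_append]
    constructor
    · rintro ⟨v, h1, h2⟩
      rw [Q.path_append] at h1
      obtain ⟨u, h3, h4⟩ := h1
      rw [Q.path_x, Q.path_aq _ _ _ j hj] at h4
      obtain ⟨rfl, -, rfl⟩ := h4
      exact ⟨h3, h2⟩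
    · rintro ⟨h1, h2⟩
      refine ⟨Q.v2, ?_, h2⟩
      rw [Q.path_append]
      refine ⟨Q.v0, h1, ?_⟩
      rw [Q.path_x, Q.path_aq _ _ _ j hj]
      exact ⟨rfl, rfl, rfl⟩
  rw [hpath]
  have hj0 : (j = 0) = False := by simp; omega
  have hj1 : (j = 1) = False := by simp; omega
  have hj2 : (j = 2) = False := by simp; omega
  have hj3 : (j = 3) = False := by simp; omega
  have e0 : cnt (p ++ (0 :: (List.replicate r 1 ++ [j])) ++ s) 0 = p.count 0 + s.count 0 + 1 := by
    simp [cnt, List.count_append, count_rep, List.count_cons, hj0]; omega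
  have e1 : cnt (p ++ (0 :: (List.replicate r 1 ++ [j])) ++ s) 1 = p.count 1 + s.count 1 + r := by
    simp [cnt, List.count_append, count_rep, List.count_cons, hj1]; omega
  have e2 : cnt (p ++ (0 :: (List.replicate r 1 ++ [j])) ++ s) 2 = p.count 2 + s.count 2 := by
    simp [cnt, List.count_append, count_rep, List.count_cons, hj2]
  have e3 : cnt (p ++ (0 :: (List.replicate r 1 ++ [j])) ++ s) 3 = p.count 3 + s.count 3 := by
    simp [cnt, List.count_append, count_rep, List.count_cons, hj3]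
  have ej : cnt (p ++ (0 :: (List.replicate r 1 ++ [j])) ++ s) j = p.count j + s.count j + 1 := by
    have : (0 = j) = False := by simp; omega
    have h' : ¬ j = 1 := by omega
    simp [cnt, List.count_append, count_rep, List.count_cons, this, h']; omega
  have el : ∀ l, 4 ≤ l → l ≠ j → cnt (p ++ (0 :: (List.replicate r 1 ++ [j])) ++ s) l =
      p.count l + s.count l := by
    intro l hl hlj
    have h1 : (0 = l) = False := by simp; omega
    have h2 : ¬ l = 1 := by omega
    have h3 : (j = l) = False := by simp; exact Ne.symm hlj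
    simp [cnt, List.count_append, count_rep, List.count_cons, h1, h2, h3]
  rw [e0, e1, e2, e3, ej]
  constructor
  · rintro ⟨⟨h1, h2⟩, h3, h4, h5, h6, h7⟩
    have hp : p = [] := Q.nil_of_v0 h1 (by omega)
    subst hp
    have hs0 : s.count 0 = 0 := by omega
    have hs1 := Q.count_of_v2 h2 hs0
    refine ⟨rfl, h2, hs0, by simpa using h4, ?_, ?_⟩
    · intro l hl
      by_cases hlj : l = j
      · subst hlj; omega
      · have := h6 l hl hlj
        rw [el l hl hlj] at this
        omega
    · simpa [hs1] using h7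
  · rintro ⟨rfl, h2, hs0, hs3, hsl, h7⟩
    have hs1 := Q.count_of_v2 h2 hs0
    refine ⟨⟨rfl, h2⟩, by simp [hs0], by simp [hs3], by simp [hsl j hj], ?_, by simpa [hs1] using h7⟩
    intro l hl hlj
    rw [el l hl hlj, hsl l hl]
    simp

theorem num4 (i k : ℕ) : num Y 4 i k = i + Y.m * k := by simp [num]

theorem num5 (r i k : ℕ) : num Y (5 + r) i k = i + Y.a r * k + Y.e r := by
  have h5 : ¬ 5 + r = 4 := by omega
  simp [num, if_neg h5]

theorem halts_iff {r : ℕ} (hr : r < Y.m) (hH : Y.H r = false) (k : ℕ) :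
    Y.Halts (r + Y.m * k) ↔ Y.Halts (Y.a r * k + Y.e r) := by
  have h1 : (r + Y.m * k) % Y.m = r := by
    rw [Nat.add_mul_mod_self_left, Nat.mod_eq_of_lt hr]
  have h2 : (r + Y.m * k) / Y.m = k := by
    have hm : 0 < Y.m := by omega
    rw [Nat.add_mul_div_left _ _ hm, Nat.div_eq_of_lt hr, zero_add]
  have h3 : Y.next (r + Y.m * k) = Y.a r * k + Y.e r := by
    unfold Sys.next
    rw [h1, h2]
  constructor
  · intro h
    cases h with
    | halt _ h' => rw [h1, hH] at h'; exact absurd h' (by simp)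
    | step _ _ h' => rwa [h3] at h'
  · intro h
    refine Sys.Halts.step _ (by rw [h1, hH]) ?_
    rwa [h3]

theorem val_r2 {r : ℕ} (hr : r < Y.m) (hH : Y.H r = false) (p s : List ℕ) :
    Val Q Y (p ++ (0 :: (List.replicate r 1 ++ [4])) ++ s) ↔
      Val Q Y (p ++ [0, 5 + r] ++ s) := by
  have e : ([0, 5 + r] : List ℕ) = 0 :: (List.replicate 0 1 ++ [5 + r]) := by simp
  rw [e, val_left Q Y (by omega), val_left Q Y (by omega), num4, num5, halts_iff Y hr hH]
  simp

theorem val_r2' {r : ℕ} (hr : r < Y.m) (hH : Y.H r = true) (p s : List ℕ) :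
    ¬ Val Q Y (p ++ (0 :: (List.replicate r 1 ++ [4])) ++ s) := by
  rw [val_left Q Y (by omega), num4]
  rintro ⟨-, -, -, -, -, h⟩
  apply h
  refine Sys.Halts.halt _ ?_
  rw [Nat.add_mul_mod_self_left, Nat.mod_eq_of_lt hr, hH]

/-- the word of a configuration, seen from the right -/
theorem val_right {e : ℕ} {j : ℕ} (hj : 4 ≤ j) (p s : List ℕ) :
    Val Q Y (p ++ (List.replicate e 1 ++ [j, 3]) ++ s) ↔
      s = [] ∧ Q.Path Q.v0 p Q.v1 ∧ p.count 0 = 1 ∧ p.count 3 = 0 ∧
        (∀ l, 4 ≤ l → p.count l = 0) ∧ ¬ Y.Halts (num Y j (p.count 1 + e) 0) := by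
  unfold Val
  rw [Good.iff (j := j) hj (by simp [cnt])]
  have hpath : Q.Path Q.v0 (p ++ (List.replicate e 1 ++ [j, 3]) ++ s) Q.vz ↔
      Q.Path Q.v0 p Q.v1 ∧ Q.Path Q.vz s Q.vz := by
    rw [Q.path_append]
    constructor
    · rintro ⟨v, h1, h2⟩
      rw [Q.path_append] at h1
      obtain ⟨u, h3, h4⟩ := h1
      rw [Q.path_aql _ _ _ j hj, Q.path_t] at h4
      obtain ⟨rfl, -, rfl⟩ := h4
      exact ⟨h3, h2⟩
    · rintro ⟨h1, h2⟩
      refine ⟨Q.vz, ?_, h2⟩
      rw [Q.path_append]
      refine ⟨Q.v1, h1, ?_⟩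
      rw [Q.path_aql _ _ _ j hj, Q.path_t]
      exact ⟨rfl, rfl, rfl⟩
  rw [hpath]
  have hj0 : (j = 0) = False := by simp; omega
  have hj1 : (j = 1) = False := by simp; omega
  have hj2 : (j = 2) = False := by simp; omega
  have hj3 : (j = 3) = False := by simp; omega
  have e0 : cnt (p ++ (List.replicate e 1 ++ [j, 3]) ++ s) 0 = p.count 0 + s.count 0 := by
    simp [cnt, List.count_append, count_rep, List.count_cons, hj0]
  have e1 : cnt (p ++ (List.replicate e 1 ++ [j, 3]) ++ s) 1 = p.count 1 + e + s.count 1 := by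
    simp [cnt, List.count_append, count_rep, List.count_cons, hj1]; omega
  have e2 : cnt (p ++ (List.replicate e 1 ++ [j, 3]) ++ s) 2 = p.count 2 + s.count 2 := by
    simp [cnt, List.count_append, count_rep, List.count_cons, hj2]
  have e3 : cnt (p ++ (List.replicate e 1 ++ [j, 3]) ++ s) 3 = p.count 3 + s.count 3 + 1 := by
    simp [cnt, List.count_append, count_rep, List.count_cons, hj3]; omega
  have ej : cnt (p ++ (List.replicate e 1 ++ [j, 3]) ++ s) j = p.count j + s.count j + 1 := by
    have : (3 = j) = False := by simp; omega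
    have h' : ¬ j = 1 := by omega
    simp [cnt, List.count_append, count_rep, List.count_cons, this, h']; omega
  have el : ∀ l, 4 ≤ l → l ≠ j → cnt (p ++ (List.replicate e 1 ++ [j, 3]) ++ s) l =
      p.count l + s.count l := by
    intro l hl hlj
    have h1 : (3 = l) = False := by simp; omega
    have h2 : ¬ l = 1 := by omega
    have h3 : (j = l) = False := by simp; exact Ne.symm hlj
    simp [cnt, List.count_append, count_rep, List.count_cons, h1, h2, h3]
  rw [e0, e1, e2, e3, ej]
  constructor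
  · rintro ⟨⟨h1, h2⟩, h3, h4, h5, h6, h7⟩
    have hpos := Q.count_zero_pos h1
    have hs : s = [] := Q.nil_of_vz h2 (by omega)
    subst hs
    have hp3 : p.count 3 = 0 := by omega
    have hp2 := Q.count_of_v0 h1 hp3
    refine ⟨rfl, h1, by simpa using h3, hp3, ?_, ?_⟩
    · intro l hl
      by_cases hlj : l = j
      · subst hlj; omega
      · have := h6 l hl hlj
        rw [el l hl hlj] at this
        omega
    · simpa [hp2] using h7
  · rintro ⟨rfl, h1, hp0, hp3, hpl, h7⟩
    have hp2 := Q.count_of_v0 h1 hp3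
    refine ⟨⟨h1, rfl⟩, by simp [hp0], by simp [hp3], by simp [hpl j hj], ?_, by simpa [hp2] using h7⟩
    intro l hl hlj
    rw [el l hl hlj, hpl l hl]
    simp

theorem val_r4 (r : ℕ) (p s : List ℕ) : Val Q Y (p ++ [5 + r, 3] ++ s) ↔
    Val Q Y (p ++ (List.replicate (Y.e r) 1 ++ [4, 3]) ++ s) := by
  have e : ([5 + r, 3] : List ℕ) = List.replicate 0 1 ++ [5 + r, 3] := by simp
  rw [e, val_right Q Y (by omega), val_right Q Y (by omega), num4, num5]
  simp

/-- the word of the number `N` -/
theorem val_word (N : ℕ) (h : ¬ Y.Halts N) :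
    Val Q Y (0 :: (List.replicate N 1 ++ [4, 3])) := by
  have := (val_left Q Y (r := N) (j := 4) le_rfl [] [3]).2 ⟨rfl, (Q.path_t _ _).2 ⟨rfl, rfl⟩,
    by simp, by simp, fun l hl => by
      have : (3 = l) = False := by simp; omega
      simp [List.count_cons, this], by rw [num4]; simpa using h⟩
  simpa using this

end rels

end Pool.Agent.U113.EQ
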