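import Mathlib
import Pool.Agent.Helper707.Rel

/-!
# The relations and the word of a halting number
-/

set_option autoImplicit false

namespace Pool.Agent.U113.EQ

open Pool.Agent.Helper707.Rel

/-- The relations which simulate the generalised Collatz map `Y`: `g 0 = x`, `g 1 = a`, `g 2 = b`,
`g 3 = t`, `g 4 = q`, `g (5 + r) = q_r`. -/
structure Rels {B : Type*} [Ring B] (Y : Sys) (g : ℕ → B) : Prop where
  r1 : g 1 ^ Y.m * g 4 = g 4 * g 2
  r2 : ∀ r, r < Y.m → Y.H r = false → g 0 * g 1 ^ r * g 4 = g 0 * g (5 + r)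
  r2' : ∀ r, r < Y.m → Y.H r = true → g 0 * g 1 ^ r * g 4 = 0
  r3 : ∀ r, r < Y.m → g (5 + r) * g 2 = g 1 ^ Y.a r * g (5 + r)
  r4 : ∀ r, r < Y.m → g (5 + r) * g 3 = g 1 ^ Y.e r * g 4 * g 3

theorem Rels.halts {B : Type*} [Ring B] {Y : Sys} {g : ℕ → B} (h : Rels Y g) (hm : 0 < Y.m)
    {N : ℕ} (hN : Y.Halts N) : g 0 * g 1 ^ N * g 4 * g 3 = 0 := by
  have pw : ∀ k, g 1 ^ (Y.m * k) * g 4 = g 4 * g 2 ^ k := by
    intro k
    induction k with
    | zero => simp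
    | succ k ih =>
      rw [Nat.mul_succ, pow_add, mul_assoc, h.r1, ← mul_assoc, ih, mul_assoc, ← pow_succ]
  have pr : ∀ r, r < Y.m → ∀ k, g (5 + r) * g 2 ^ k = g 1 ^ (Y.a r * k) * g (5 + r) := by
    intro r hr k
    induction k with
    | zero => simp
    | succ k ih =>
      rw [pow_succ, ← mul_assoc, ih, mul_assoc, h.r3 r hr, ← mul_assoc, ← pow_add, Nat.mul_succ]
  have spl : ∀ N, g 0 * g 1 ^ N * g 4 * g 3 =
      g 0 * g 1 ^ (N % Y.m) * g 4 * (g 2 ^ (N / Y.m) * g 3) := by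
    intro N
    have e : N = N % Y.m + Y.m * (N / Y.m) := (Nat.mod_add_div N Y.m).symm
    calc g 0 * g 1 ^ N * g 4 * g 3
        = g 0 * g 1 ^ (N % Y.m + Y.m * (N / Y.m)) * g 4 * g 3 := by rw [← e]
      _ = g 0 * g 1 ^ (N % Y.m) * (g 1 ^ (Y.m * (N / Y.m)) * g 4) * g 3 := by
        rw [pow_add]; simp only [mul_assoc]
      _ = g 0 * g 1 ^ (N % Y.m) * g 4 * (g 2 ^ (N / Y.m) * g 3) := by
        rw [pw]; simp only [mul_assoc]
  induction hN with
  | halt N hH =>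
    rw [spl, h.r2' _ (Nat.mod_lt _ hm) hH, zero_mul]
  | step N hH _ ih =>
    have hr := Nat.mod_lt N hm
    rw [spl, h.r2 _ hr hH]
    calc g 0 * g (5 + N % Y.m) * (g 2 ^ (N / Y.m) * g 3)
        = g 0 * (g (5 + N % Y.m) * g 2 ^ (N / Y.m)) * g 3 := by simp only [mul_assoc]
      _ = g 0 * g 1 ^ (Y.a (N % Y.m) * (N / Y.m)) * (g (5 + N % Y.m) * g 3) := by
        rw [pr _ hr]; simp only [mul_assoc]
      _ = g 0 * g 1 ^ (Y.next N) * g 4 * g 3 := by
        rw [h.r4 _ hr]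
        unfold Sys.next
        rw [pow_add]
        simp only [mul_assoc]
      _ = 0 := ih

end Pool.Agent.U113.EQ
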