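import Mathlib
import Pool.Agent.U113.EQ.Path
import Pool.Agent.U113.EQ.Sound

/-!
# The algebra
-/

set_option autoImplicit false
set_option linter.unusedSimpArgs false

namespace Pool.Agent.U113.EQ

open Pool.Agent.Helper707.Rel MvPolynomial

section rep

variable (F : Type*) [Field F] {V : Type} [Fintype V] [DecidableEq V] (Q : Quiv V) (Y : Sys)

/-- polynomials in countably many variables -/
abbrev Co : Type _ := MvPolynomial ℕ F

/-- the matrix of a letter -/
noncomputable def mat (c : ℕ) : Matrix V V (Co F) := Matrix.single (Q.src c) (Q.tgt c) (X c)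

/-- the representation of the free algebra -/
noncomputable def rho : FreeAlgebra F ℕ →ₐ[F] Matrix V V (Co F) := FreeAlgebra.lift F (mat F Q)

/-- the word in the free algebra -/
noncomputable def wd (l : List ℕ) : FreeAlgebra F ℕ := (l.map (FreeAlgebra.ι F)).prod

theorem wd_append (l l' : List ℕ) : wd F (l ++ l') = wd F l * wd F l' := by
  simp [wd]

open Classical in
/-- weights of monomials -/
noncomputable def wt (d : ℕ →₀ ℕ) : F := if Good Y d then 1 else 0

/-- the linear functional on the polynomials -/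
noncomputable def lin : Co F →ₗ[F] F := (basisMonomials ℕ F).constr F (wt F Y)

theorem lin_monomial (d : ℕ →₀ ℕ) : lin F Y (monomial d 1) = wt F Y d := by
  unfold lin
  have h := (basisMonomials ℕ F).constr_basis F (wt F Y) d
  rwa [coe_basisMonomials] at h

/-- the functional -/
noncomputable def phi : FreeAlgebra F ℕ →ₗ[F] F where
  toFun f := lin F Y (rho F Q f Q.v0 Q.vz)
  map_add' f g := by simp
  map_smul' c f := by simp

/-- the content of a word as a finitely supported function -/
noncomputable def cf (l : List ℕ) : ℕ →₀ ℕ := Multiset.toFinsupp (l : Multiset ℕ)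

theorem cf_apply (l : List ℕ) : ⇑(cf l) = cnt l := by
  funext c
  simp [cf, cnt]

theorem cf_cons (c : ℕ) (l : List ℕ) : cf (c :: l) = Finsupp.single c 1 + cf l := by
  ext d
  rw [Finsupp.add_apply, cf_apply, cf_apply]
  simp only [cnt, List.count_cons, Finsupp.single_apply, beq_iff_eq]
  omega

open Classical in
theorem rho_wd (l : List ℕ) (u w : V) :
    rho F Q (wd F l) u w = if Q.Path u l w then monomial (cf l) 1 else 0 := by
  induction l generalizing u with
  | nil =>
    have h1 : wd F ([] : List ℕ) = 1 := by simp [wd]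
    have h2 : cf [] = 0 := by ext; simp [cf_apply, cnt]
    rw [h1, map_one, h2, Matrix.one_apply]
    simp only [Quiv.Path]
    by_cases huw : u = w
    · simp [huw]
    · simp [huw]
  | cons c l ih =>
    have h1 : wd F (c :: l) = FreeAlgebra.ι F c * wd F l := by simp [wd]
    rw [h1, map_mul]
    have h2 : rho F Q (FreeAlgebra.ι F c) = mat F Q c := by simp [rho]
    rw [h2, mat]
    by_cases hu : Q.src c = u
    · subst hu
      rw [Matrix.single_mul_apply_same, ih]
      simp only [Quiv.Path, true_and]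
      split_ifs
      · rw [cf_cons, MvPolynomial.X, monomial_mul, one_mul]
      · rw [mul_zero]
    · rw [Matrix.single_mul_apply_of_ne _ _ _ _ _ (Ne.symm hu)]
      simp only [Quiv.Path, hu, false_and, if_false]

open Classical in
theorem phi_wd (l : List ℕ) : phi F Q Y (wd F l) = if Val Q Y l then 1 else 0 := by
  change lin F Y (rho F Q (wd F l) Q.v0 Q.vz) = _
  rw [rho_wd]
  unfold Val
  split_ifs with h1 h2 h3
  · rw [lin_monomial, wt, if_pos]
    rw [cf_apply]; exact h2.2
  · rw [lin_monomial, wt, if_neg]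
    rw [cf_apply]; exact fun h => h2 ⟨h1, h⟩
  · exact absurd h3.1 h1
  · rw [map_zero]

/-- the free algebra is spanned by the words -/
theorem span_wd : Submodule.span F (Set.range (wd F)) = ⊤ := by
  rw [eq_top_iff]
  have h1 := FreeAlgebra.adjoin_range_ι F ℕ
  intro f _
  have h2 : f ∈ Algebra.adjoin F (Set.range (FreeAlgebra.ι F : ℕ → FreeAlgebra F ℕ)) := by
    rw [h1]; exact Algebra.mem_top
  rw [← Subalgebra.mem_toSubmodule, Algebra.adjoin_eq_span] at h2
  refine Submodule.span_mono ?_ h2
  intro y hy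
  obtain ⟨l, hl, rfl⟩ := Submonoid.exists_list_of_mem_closure hy
  have : ∃ l' : List ℕ, l'.map (FreeAlgebra.ι F) = l := by
    clear h2 hy
    induction l with
    | nil => exact ⟨[], rfl⟩
    | cons a l ih =>
      obtain ⟨c, rfl⟩ := hl a (by simp)
      obtain ⟨l', rfl⟩ := ih fun y hy => hl y (by simp [hy])
      exact ⟨c :: l', rfl⟩
  obtain ⟨l', rfl⟩ := this
  exact ⟨l', rfl⟩

theorem ext_wd {f : FreeAlgebra F ℕ →ₗ[F] F} (h : ∀ l, f (wd F l) = 0) : f = 0 := by
  have : (⊤ : Submodule F (FreeAlgebra F ℕ)) ≤ LinearMap.ker f := by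
    rw [← span_wd F, Submodule.span_le]
    rintro _ ⟨l, rfl⟩
    exact h l
  ext x
  exact this (Submodule.mem_top : x ∈ ⊤)

/-- the ideal: the elements `f` with `phi (p * f * s) = 0` for all `p` and `s` -/
noncomputable def K : TwoSidedIdeal (FreeAlgebra F ℕ) :=
  TwoSidedIdeal.mk' {f | ∀ p s, phi F Q Y (p * f * s) = 0}
    (by intro p s; simp)
    (by
      intro f g hf hg p s
      rw [mul_add, add_mul, map_add, hf, hg, add_zero])
    (by
      intro f hf p s
      rw [mul_neg, neg_mul, map_neg, hf, neg_zero])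
    (by
      intro g f hf p s
      have := hf (p * g) s
      rwa [mul_assoc p g f] at this)
    (by
      intro f g hf p s
      have := hf p (g * s)
      simpa only [mul_assoc] using this)

theorem mem_K {f : FreeAlgebra F ℕ} : f ∈ K F Q Y ↔ ∀ p s, phi F Q Y (p * f * s) = 0 := by
  unfold K
  rw [TwoSidedIdeal.mem_mk']
  rfl

theorem mem_K' {f : FreeAlgebra F ℕ} :
    f ∈ K F Q Y ↔ ∀ p s : List ℕ, phi F Q Y (wd F p * f * wd F s) = 0 := by
  rw [mem_K]
  constructor
  · intro h p s
    exact h _ _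
  · intro h p s
    have h1 : ∀ l : List ℕ, phi F Q Y (wd F l * f * s) = 0 := by
      intro l
      have := ext_wd F (f := (phi F Q Y).comp (LinearMap.mulLeft F (wd F l * f))) (by
        intro l'
        exact h l l')
      exact LinearMap.congr_fun this s
    have := ext_wd F (f := (phi F Q Y).comp (LinearMap.mulRight F (f * s))) (by
      intro l'
      have h2 := h1 l'
      rw [mul_assoc] at h2
      exact h2)
    have h2 := LinearMap.congr_fun this p
    rw [mul_assoc]
    exact h2

theorem sub_mem_K {l r : List ℕ}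
    (h : ∀ p s, Val Q Y (p ++ l ++ s) ↔ Val Q Y (p ++ r ++ s)) : wd F l - wd F r ∈ K F Q Y := by
  classical
  rw [mem_K']
  intro p s
  rw [mul_sub, sub_mul, map_sub, ← wd_append, ← wd_append, ← wd_append, ← wd_append, phi_wd,
    phi_wd, sub_eq_zero]
  by_cases h1 : Val Q Y (p ++ r ++ s)
  · rw [if_pos h1, if_pos ((h p s).2 h1)]
  · rw [if_neg h1, if_neg fun h2 => h1 ((h p s).1 h2)]

theorem zero_mem_K {l : List ℕ} (h : ∀ p s, ¬ Val Q Y (p ++ l ++ s)) : wd F l ∈ K F Q Y := by
  classical
  rw [mem_K']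
  intro p s
  rw [← wd_append, ← wd_append, phi_wd, if_neg (h p s)]

theorem not_mem_K {l : List ℕ} (h : Val Q Y l) : wd F l ∉ K F Q Y := by
  classical
  rw [mem_K']
  intro h1
  have := h1 [] []
  have e : wd F ([] : List ℕ) = 1 := by simp [wd]
  rw [e, one_mul, mul_one, phi_wd, if_pos h] at this
  exact one_ne_zero this

/-- the algebra -/
abbrev Alg : Type _ := (K F Q Y).ringCon.Quotient

/-- the projection -/
noncomputable def pr : FreeAlgebra F ℕ →ₐ[F] Alg F Q Y where
  __ := (K F Q Y).ringCon.mk'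
  commutes' _ := rfl

theorem pr_surj : Function.Surjective (pr F Q Y) := RingCon.mk'_surjective _

theorem pr_eq_zero {f : FreeAlgebra F ℕ} : pr F Q Y f = 0 ↔ f ∈ K F Q Y := by
  change (K F Q Y).ringCon.mk' f = 0 ↔ _
  rw [← TwoSidedIdeal.mem_ker, TwoSidedIdeal.ker_ringCon_mk']

/-- the generators -/
noncomputable def g (c : ℕ) : Alg F Q Y := pr F Q Y (FreeAlgebra.ι F c)

theorem pr_wd (l : List ℕ) : pr F Q Y (wd F l) = (l.map (g F Q Y)).prod := by
  unfold wd
  rw [map_list_prod, List.map_map]
  rfl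

theorem rels : Rels Y (g F Q Y) where
  r1 := by
    have h := (pr_eq_zero F Q Y).2 (sub_mem_K F Q Y (val_r1 Q Y))
    rw [map_sub, sub_eq_zero, pr_wd, pr_wd] at h
    simpa using h
  r2 r hr hH := by
    have h := (pr_eq_zero F Q Y).2 (sub_mem_K F Q Y (val_r2 Q Y hr hH))
    rw [map_sub, sub_eq_zero, pr_wd, pr_wd] at h
    simpa [mul_assoc] using h
  r2' r hr hH := by
    have h := (pr_eq_zero F Q Y).2 (zero_mem_K F Q Y (val_r2' Q Y hr hH))
    rw [pr_wd] at h
    simpa [mul_assoc] using h
  r3 r _ := by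
    have h := (pr_eq_zero F Q Y).2 (sub_mem_K F Q Y (val_r3 Q Y r))
    rw [map_sub, sub_eq_zero, pr_wd, pr_wd] at h
    simpa using h
  r4 r _ := by
    have h := (pr_eq_zero F Q Y).2 (sub_mem_K F Q Y (val_r4 Q Y r))
    rw [map_sub, sub_eq_zero, pr_wd, pr_wd] at h
    simpa [mul_assoc] using h

theorem word_ne_zero {N : ℕ} (h : ¬ Y.Halts N) :
    g F Q Y 0 * g F Q Y 1 ^ N * g F Q Y 4 * g F Q Y 3 ≠ 0 := by
  intro h1
  apply not_mem_K F Q Y (val_word Q Y N h)
  rw [← pr_eq_zero, pr_wd]
  simpa [mul_assoc] using h1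

end rep

end Pool.Agent.U113.EQ
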