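import Mathlib

/-!
# The standard identity of degree at least six for upper triangular `4 × 4` matrices whose first
and last diagonal entries agree
-/

set_option autoImplicit false

namespace Pool.Agent.U113.EQ

section path

variable {R : Type*} [CommRing R] {V : Type} [Fintype V] [DecidableEq V]

theorem prod_entry : ∀ (n : ℕ) (M : Fin n → Matrix V V R) (i j : V),
    (List.ofFn M).prod i j = ∑ v : Fin (n + 1) → V,
      if v 0 = i ∧ v (Fin.last n) = j then ∏ k : Fin n, M k (v k.castSucc) (v k.succ) else 0 := by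
  intro n
  induction n with
  | zero =>
    intro M i j
    rw [← (Equiv.funUnique (Fin 1) V).symm.sum_comp]
    simp only [List.ofFn_zero, List.prod_nil, Matrix.one_apply]
    have : ∀ x : V, (Equiv.funUnique (Fin 1) V).symm x (Fin.last 0) = x := fun x => rfl
    have h0 : ∀ x : V, (Equiv.funUnique (Fin 1) V).symm x 0 = x := fun x => rfl
    simp only [this, h0, Finset.univ_eq_empty, Finset.prod_empty]
    by_cases hij : i = j
    · subst hij
      simp
    · rw [if_neg hij, Finset.sum_eq_zero]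
      intro x _
      rw [if_neg]
      rintro ⟨rfl, h⟩
      exact hij h
  | succ n ih =>
    intro M i j
    have rhs : (∑ v : Fin (n + 2) → V, if v 0 = i ∧ v (Fin.last (n + 1)) = j then
        ∏ k : Fin (n + 1), M k (v k.castSucc) (v k.succ) else 0) =
        ∑ w : Fin (n + 1) → V, if w (Fin.last n) = j then
          M 0 i (w 0) * ∏ k : Fin n, M k.succ (w k.castSucc) (w k.succ) else 0 := by
      rw [← (Fin.consEquiv (fun _ : Fin (n + 2) => V)).sum_comp, Fintype.sum_prod_type]
      have hs : ∀ (u : V) (w : Fin (n + 1) → V),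
          (Fin.consEquiv (fun _ : Fin (n + 2) => V)) (u, w) = (Fin.cons u w : Fin (n + 2) → V) :=
        fun u w => rfl
      simp only [hs]
      rw [Finset.sum_eq_single i]
      · refine Finset.sum_congr rfl fun w _ => ?_
        have hl : (Fin.cons i w : Fin (n + 2) → V) (Fin.last (n + 1)) = w (Fin.last n) := by
          rw [← Fin.succ_last, Fin.cons_succ]
        rw [hl, Fin.cons_zero]
        by_cases h : w (Fin.last n) = j
        · rw [if_pos ⟨rfl, h⟩, if_pos h, Fin.prod_univ_succ]
          simp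
        · rw [if_neg fun h' => h h'.2, if_neg h]
      · intro b _ hb
        refine Finset.sum_eq_zero fun w _ => ?_
        rw [if_neg]
        rintro ⟨h, -⟩
        rw [Fin.cons_zero] at h
        exact hb h
      · intro h
        exact absurd (Finset.mem_univ _) h
    rw [rhs, List.ofFn_succ, List.prod_cons, Matrix.mul_apply]
    simp only [ih, Finset.mul_sum]
    rw [Finset.sum_comm]
    refine Finset.sum_congr rfl fun w _ => ?_
    rw [Finset.sum_eq_single (w 0)]
    · by_cases h : w (Fin.last n) = j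
      · rw [if_pos ⟨rfl, h⟩, if_pos h]
      · rw [if_neg fun h' => h h'.2, if_neg h, mul_zero]
    · intro b _ hb
      rw [if_neg fun h' => hb h'.1.symm, mul_zero]
    · intro h
      exact absurd (Finset.mem_univ _) h

/-- the standard polynomial -/
def std {B : Type*} [Ring B] {n : ℕ} (y : Fin n → B) : B :=
  ∑ σ : Equiv.Perm (Fin n), Equiv.Perm.sign σ • (List.ofFn fun i => y (σ i)).prod

/-- the matrix of the entries along a path -/
def pm {n : ℕ} (y : Fin n → Matrix V V R) (v : Fin (n + 1) → V) : Matrix (Fin n) (Fin n) R :=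
  fun k l => y l (v k.castSucc) (v k.succ)

theorem std_entry {n : ℕ} (y : Fin n → Matrix V V R) (i j : V) :
    std y i j = ∑ v : Fin (n + 1) → V,
      if v 0 = i ∧ v (Fin.last n) = j then (pm y v).det else 0 := by
  unfold std
  rw [Matrix.sum_apply]
  have h1 : ∀ σ : Equiv.Perm (Fin n),
      (Equiv.Perm.sign σ • (List.ofFn fun i => y (σ i)).prod) i j =
      ∑ v : Fin (n + 1) → V, if v 0 = i ∧ v (Fin.last n) = j then
        Equiv.Perm.sign σ • ∏ k : Fin n, y (σ k) (v k.castSucc) (v k.succ) else 0 := by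
    intro σ
    have h2 : (Equiv.Perm.sign σ • (List.ofFn fun i => y (σ i)).prod) i j =
      Equiv.Perm.sign σ • ((List.ofFn fun i => y (σ i)).prod i j) := rfl
    rw [h2, prod_entry, Finset.smul_sum]
    refine Finset.sum_congr rfl fun v _ => ?_
    split_ifs
    · rfl
    · rw [smul_zero]
  simp only [h1]
  rw [Finset.sum_comm]
  refine Finset.sum_congr rfl fun v _ => ?_
  by_cases h : v 0 = i ∧ v (Fin.last n) = j
  · simp only [if_pos h]
    rw [← Matrix.det_transpose, Matrix.det_apply]
    rfl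
  · simp only [if_neg h, Finset.sum_const_zero]

end path

/-- classes of vertices: the two ends are identified -/
def cl (x : ℕ) : ℕ := if x = 3 then 0 else x

/-- the two exceptional paths of length six -/
theorem six_nat (w : ℕ → ℕ) (h6 : w 6 ≤ 3) (hm : ∀ k, k < 6 → w k ≤ w (k + 1))
    (hd : ∀ k l, k < l → l < 6 → w k = w (k + 1) → w l = w (l + 1) → cl (w k) ≠ cl (w l)) :
    (w 0 = 0 ∧ w 1 = 0 ∧ w 2 = 1 ∧ w 3 = 1 ∧ w 4 = 2 ∧ w 5 = 2 ∧ w 6 = 3) ∨
    (w 0 = 0 ∧ w 1 = 1 ∧ w 2 = 1 ∧ w 3 = 2 ∧ w 4 = 2 ∧ w 5 = 3 ∧ w 6 = 3) := by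
  have m0 := hm 0 (by omega)
  have m1 := hm 1 (by omega)
  have m2 := hm 2 (by omega)
  have m3 := hm 3 (by omega)
  have m4 := hm 4 (by omega)
  have m5 := hm 5 (by omega)
  have d01 := hd 0 1 (by omega) (by omega)
  have d02 := hd 0 2 (by omega) (by omega)
  have d03 := hd 0 3 (by omega) (by omega)
  have d04 := hd 0 4 (by omega) (by omega)
  have d05 := hd 0 5 (by omega) (by omega)
  have d12 := hd 1 2 (by omega) (by omega)
  have d13 := hd 1 3 (by omega) (by omega)
  have d14 := hd 1 4 (by omega) (by omega)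
  have d15 := hd 1 5 (by omega) (by omega)
  have d23 := hd 2 3 (by omega) (by omega)
  have d24 := hd 2 4 (by omega) (by omega)
  have d25 := hd 2 5 (by omega) (by omega)
  have d34 := hd 3 4 (by omega) (by omega)
  have d35 := hd 3 5 (by omega) (by omega)
  have d45 := hd 4 5 (by omega) (by omega)
  clear hd hm
  simp only [Nat.reduceAdd, zero_add] at *
  generalize w 0 = a0 at *
  generalize w 1 = a1 at *
  generalize w 2 = a2 at *
  generalize w 3 = a3 at *
  generalize w 4 = a4 at *
  generalize w 5 = a5 at *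
  generalize w 6 = a6 at *
  have c0 : cl 0 = 0 := rfl
  have c1 : cl 1 = 1 := rfl
  have c2 : cl 2 = 2 := rfl
  have c3 : cl 3 = 0 := rfl
  interval_cases a6 <;> interval_cases a5 <;> interval_cases a4 <;> interval_cases a3 <;>
    interval_cases a2 <;> interval_cases a1 <;> interval_cases a0 <;>
    simp_all

theorem six_nat' (w : ℕ → ℕ) (n : ℕ) (hn : 7 ≤ n) (hb : ∀ k, k ≤ n → w k ≤ 3)
    (hm : ∀ k, k < n → w k ≤ w (k + 1))
    (hd : ∀ k l, k < l → l < n → w k = w (k + 1) → w l = w (l + 1) → cl (w k) ≠ cl (w l)) :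
    False := by
  have h1 := six_nat w (hb 6 (by omega)) (fun k hk => hm k (by omega))
    (fun k l h1 h2 => hd k l h1 (by omega))
  have h2 := six_nat (fun k => w (k + 1)) (hb 7 (by omega)) (fun k hk => hm (k + 1) (by omega))
    (fun k l h1 h2 => hd (k + 1) (l + 1) (by omega) (by omega))
  simp only [Nat.reduceAdd, zero_add] at h2
  rcases h1 with h1 | h1 <;> rcases h2 with h2 | h2
  · omega
  · have := hd 0 6 (by omega) (by omega) (by simp only [zero_add]; omega)
      (by simp only [Nat.reduceAdd]; omega)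
    rw [h1.1, h1.2.2.2.2.2.2] at this
    exact this rfl
  · omega
  · omega

section tri

variable {R : Type*} [CommRing R]

/-- upper triangular with equal ends -/
structure Tri (M : Matrix (Fin 4) (Fin 4) R) : Prop where
  up : ∀ i j, j < i → M i j = 0
  ends : M 0 0 = M 3 3

theorem Tri.one : Tri (1 : Matrix (Fin 4) (Fin 4) R) where
  up i j h := Matrix.one_apply_ne h.ne'
  ends := by simp

theorem Tri.add {M N : Matrix (Fin 4) (Fin 4) R} (hM : Tri M) (hN : Tri N) : Tri (M + N) where
  up i j h := by rw [Matrix.add_apply, hM.up i j h, hN.up i j h, add_zero]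
  ends := by rw [Matrix.add_apply, Matrix.add_apply, hM.ends, hN.ends]

theorem Tri.mul {M N : Matrix (Fin 4) (Fin 4) R} (hM : Tri M) (hN : Tri N) : Tri (M * N) where
  up i j h := by
    rw [Matrix.mul_apply]
    refine Finset.sum_eq_zero fun k _ => ?_
    rcases lt_or_ge k i with h1 | h1
    · rw [hM.up i k h1, zero_mul]
    · rw [hN.up k j (lt_of_lt_of_le h h1), mul_zero]
  ends := by
    rw [Matrix.mul_apply, Matrix.mul_apply, Fin.sum_univ_four, Fin.sum_univ_four,
      hN.up 1 0 (by decide), hN.up 2 0 (by decide), hN.up 3 0 (by decide),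
      hM.up 3 0 (by decide), hM.up 3 1 (by decide), hM.up 3 2 (by decide), hM.ends, hN.ends]
    ring

theorem Tri.smul {M : Matrix (Fin 4) (Fin 4) R} (hM : Tri M) {S : Type*} [Semiring S] [Module S R]
    (c : S) : Tri (c • M) where
  up i j h := by rw [Matrix.smul_apply, hM.up i j h, smul_zero]
  ends := by rw [Matrix.smul_apply, Matrix.smul_apply, hM.ends]

theorem row_eq {n : ℕ} {y : Fin n → Matrix (Fin 4) (Fin 4) R} (hy : ∀ i, Tri (y i))
    (v : Fin (n + 1) → Fin 4) (k l : Fin n) (hk : v k.castSucc = v k.succ)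
    (hl : v l.castSucc = v l.succ) (h : cl (v k.castSucc) = cl (v l.castSucc)) :
    pm y v k = pm y v l := by
  funext p
  unfold pm
  rw [← hk, ← hl]
  generalize v k.castSucc = a at *
  generalize v l.castSucc = b at *
  have hp := (hy p).ends
  have key : ∀ a b : Fin 4, cl (a : ℕ) = cl (b : ℕ) → a = b ∨ (a = 0 ∧ b = 3) ∨ (a = 3 ∧ b = 0) := by
    decide
  rcases key a b h with rfl | ⟨rfl, rfl⟩ | ⟨rfl, rfl⟩
  · rfl
  · exact hp
  · exact hp.symm

theorem det_zero {n : ℕ} {y : Fin n → Matrix (Fin 4) (Fin 4) R} (hy : ∀ i, Tri (y i))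
    (v : Fin (n + 1) → Fin 4)
    (h : ¬ ((∀ k : Fin n, v k.castSucc ≤ v k.succ) ∧ ∀ k l : Fin n, k < l →
      v k.castSucc = v k.succ → v l.castSucc = v l.succ →
      cl (v k.castSucc) ≠ cl (v l.castSucc))) : (pm y v).det = 0 := by
  rw [not_and_or] at h
  rcases h with h | h
  · push Not at h
    obtain ⟨k, hk⟩ := h
    exact Matrix.det_eq_zero_of_row_eq_zero k fun p => (hy p).up _ _ hk
  · push Not at h
    obtain ⟨k, l, hkl, h1, h2, h3⟩ := h
    exact Matrix.det_zero_of_row_eq hkl.ne (row_eq hy v k l h1 h2 h3)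

/-- the values of a path as a sequence of natural numbers -/
def seq {n : ℕ} (v : Fin (n + 1) → Fin 4) (k : ℕ) : ℕ :=
  if h : k < n + 1 then (v ⟨k, h⟩ : ℕ) else 3

theorem seq_eq {n : ℕ} (v : Fin (n + 1) → Fin 4) {k : ℕ} (h : k < n + 1) :
    seq v k = (v ⟨k, h⟩ : ℕ) := dif_pos h

theorem std_seven {n : ℕ} (hn : 7 ≤ n) {y : Fin n → Matrix (Fin 4) (Fin 4) R}
    (hy : ∀ i, Tri (y i)) : std y = 0 := by
  ext i j
  rw [std_entry, Matrix.zero_apply]
  refine Finset.sum_eq_zero fun v _ => ?_
  rw [ite_eq_right_iff]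
  intro _
  apply det_zero hy
  rintro ⟨h1, h2⟩
  refine six_nat' (seq v) n hn (fun k hk => ?_) (fun k hk => ?_) (fun k l hkl hl h3 h4 => ?_)
  · rw [seq_eq v (by omega)]
    omega
  · rw [seq_eq v (by omega), seq_eq v (by omega)]
    exact h1 ⟨k, hk⟩
  · rw [seq_eq v (by omega), seq_eq v (by omega)] at h3 h4
    rw [seq_eq v (by omega), seq_eq v (by omega)]
    exact h2 ⟨k, by omega⟩ ⟨l, hl⟩ hkl (Fin.ext h3) (Fin.ext h4)

/-- the first exceptional path -/
def va : Fin 7 → Fin 4 := ![0, 0, 1, 1, 2, 2, 3]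
/-- the second exceptional path -/
def vb : Fin 7 → Fin 4 := ![0, 1, 1, 2, 2, 3, 3]

theorem six_cases (v : Fin 7 → Fin 4) (h : (∀ k : Fin 6, v k.castSucc ≤ v k.succ) ∧
    ∀ k l : Fin 6, k < l → v k.castSucc = v k.succ → v l.castSucc = v l.succ →
      cl (v k.castSucc) ≠ cl (v l.castSucc)) : v = va ∨ v = vb := by
  obtain ⟨h1, h2⟩ := h
  have h3 := six_nat (seq v) (by rw [seq_eq v (by omega)]; omega) (fun k hk => by
    rw [seq_eq v (by omega), seq_eq v (by omega)]
    exact h1 ⟨k, hk⟩) (fun k l hkl hl h3 h4 => by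
    rw [seq_eq v (by omega), seq_eq v (by omega)] at h3 h4
    rw [seq_eq v (by omega), seq_eq v (by omega)]
    exact h2 ⟨k, by omega⟩ ⟨l, hl⟩ hkl (Fin.ext h3) (Fin.ext h4))
  have e : ∀ k (hk : k < 7), seq v k = (v ⟨k, hk⟩ : ℕ) := fun k hk => seq_eq v hk
  rw [e 0 (by omega), e 1 (by omega), e 2 (by omega), e 3 (by omega), e 4 (by omega),
    e 5 (by omega), e 6 (by omega)] at h3
  rcases h3 with ⟨a0, a1, a2, a3, a4, a5, a6⟩ | ⟨a0, a1, a2, a3, a4, a5, a6⟩
  · left
    funext k
    apply Fin.ext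
    fin_cases k
    · exact a0
    · exact a1
    · exact a2
    · exact a3
    · exact a4
    · exact a5
    · exact a6
  · right
    funext k
    apply Fin.ext
    fin_cases k
    · exact a0
    · exact a1
    · exact a2
    · exact a3
    · exact a4
    · exact a5
    · exact a6

theorem det_ab {y : Fin 6 → Matrix (Fin 4) (Fin 4) R} (hy : ∀ i, Tri (y i)) :
    (pm y va).det = - (pm y vb).det := by
  have h : pm y va = (pm y vb).submatrix (finRotate 6).symm id := by
    ext k l
    have hl := (hy l).ends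
    fin_cases k
    · exact hl
    · rfl
    · rfl
    · rfl
    · rfl
    · rfl
  rw [h, Matrix.det_permute]
  have : Equiv.Perm.sign (finRotate 6).symm = -1 := by decide
  rw [this]
  simp

theorem std_six {y : Fin 6 → Matrix (Fin 4) (Fin 4) R} (hy : ∀ i, Tri (y i)) : std y = 0 := by
  ext i j
  rw [std_entry, Matrix.zero_apply]
  have hab : va ≠ vb := by decide
  have h1 : ∀ v : Fin 7 → Fin 4, v ≠ va → v ≠ vb →
      (if v 0 = i ∧ v (Fin.last 6) = j then (pm y v).det else 0) = 0 := by
    intro v h1 h2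
    rw [ite_eq_right_iff]
    intro _
    apply det_zero hy
    intro h
    rcases six_cases v h with h3 | h3
    · exact h1 h3
    · exact h2 h3
  rw [← Finset.sum_subset (Finset.subset_univ {va, vb}) (fun v _ hv => by
    rw [Finset.mem_insert, Finset.mem_singleton, not_or] at hv
    exact h1 v hv.1 hv.2), Finset.sum_pair hab, det_ab hy]
  have e1 : va 0 = 0 := rfl
  have e2 : va (Fin.last 6) = 3 := rfl
  have e3 : vb 0 = 0 := rfl
  have e4 : vb (Fin.last 6) = 3 := rfl
  rw [e1, e2, e3, e4]
  split_ifs <;> simp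

theorem std_zero {n : ℕ} (hn : 6 ≤ n) {y : Fin n → Matrix (Fin 4) (Fin 4) R}
    (hy : ∀ i, Tri (y i)) : std y = 0 := by
  rcases Nat.eq_or_lt_of_le hn with h | h
  · subst h
    exact std_six hy
  · exact std_seven h hy

end tri

end Pool.Agent.U113.EQ
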